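import Pool.Agent.Work.MP_dd0ddf_al.FD.NonArch
import Pool.Agent.Work.MP_dd0ddf_al.FN.Arch

/-!
# MP_dd0ddf_al: multiplicity one for Weil representation periods of U(V) in GL(V)

The definitions are in `Pool/Agent/Work/MP_dd0ddf_al/FN/Defs.lean`.  `V = E^n` with the form
`⟨v, w⟩ = ∑ v_i J_ij star (w_j)`, `J` any matrix with `Jᴴ = -J`, `det J ≠ 0`; `U(V) = UV J`.
-/

namespace Pool.Agent.Results.MP_dd0ddf_al.MultiplicityOne

open Pool.Agent.Work.MP_dd0ddf_al
open Pool.Agent.Work.MP_dd0ddf_al.FN (form UV IsQuad IsIrrSmooth IsHeis IsWeil IsDiag rho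
  IsSchwartz IsWeilR IsFrechet IsCW arch exists_isDiag)
open Matrix

universe u v w

/-- **Multiplicity one, nonarchimedean case.**  `F` is a nonarchimedean local field of any
characteristic, `E / F` a separable quadratic extension with conjugation `star`, `ψ` a nontrivial
character of `F`, `V` a nondegenerate skew-Hermitian space of dimension `n ≥ 3` (`n ≤ 2` is known),
`ρ` an irreducible smooth representation of the Heisenberg group `V × F` of `V`,
`(v, s) (w, t) = (v + w, s + t + Tr(δ ⟨v, w⟩))`, with central character `ψ`, where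
`δ + star δ = 1` (`δ = 1/2` if the characteristic is not 2), `ω` a smooth representation of `U(V)`
on the same space with `ω(h) ρ(v) = ρ(h v) ω(h)`, for instance `ω_{V,ψ,μ}` for any
conjugate-symplectic `μ`.  For every irreducible smooth representation `π` of `GL(V)` the space
`Hom_{U(V)}(π, ω)` is contained in a line `ℂ l₀`. -/
def Nonarchimedean : Prop :=
  ∀ {F E : Type u} [NontriviallyNormedField F] [IsUltrametricDist F] [ProperSpace F]
    [NontriviallyNormedField E] [NormedAlgebra F E] [ProperSpace E] [StarRing E],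
  IsQuad F E →
  ∀ ψ : AddChar F Circle, Continuous ψ → ψ ≠ 1 →
  ∀ n : ℕ, 3 ≤ n → ∀ J : Matrix (Fin n) (Fin n) E, Jᴴ = -J → J.det ≠ 0 →
  ∀ δ : E, δ + star δ = 1 →
  ∀ {S : Type v} [AddCommGroup S] [Module ℂ S] (ρ : (Fin n → E) → Module.End ℂ S),
    IsHeis J δ (fun x => (ψ x : ℂ)) ρ →
  ∀ ω : GL (Fin n) E → Module.End ℂ S, IsWeil J ρ ω →
  ∀ {P : Type w} [AddCommGroup P] [Module ℂ P] (π : GL (Fin n) E →* Module.End ℂ P),
    IsIrrSmooth π →
  ∃ l₀ : P →ₗ[ℂ] S, ∀ l : P →ₗ[ℂ] S, (∀ h ∈ UV J, ∀ x, l (π h x) = ω h (l x)) →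
    ∃ c : ℂ, ∀ x, l x = c • l₀ x

/-- every skew-Hermitian space over `ℂ` is isometric to one with the form
`i ∑ ε_j v_j conj (w_j)`, `ε_j = ±1` -/
def StandardForm : Prop :=
  ∀ (n : ℕ) (J : Matrix (Fin n) (Fin n) ℂ), Jᴴ = -J → J.det ≠ 0 →
    ∃ (ε : Fin n → ℝ) (A : GL (Fin n) ℂ), IsDiag J ε A

/-- **Multiplicity one, archimedean case** (`F = ℝ`, `E = ℂ`, any `n`).  `A` is an isometry from
`V` to a standard form, `ψ(x) = exp(i a x)`, `a ≠ 0`, is a nontrivial character of `ℝ`, `S` is the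
Schwartz space of `ℝ^n`, on which the Heisenberg group of `V` acts by the Schroedinger
representation `ρ(v) = rho ε a (A v)`, `ω` is a continuous representation of `U(V)` on `S` with
differentiable orbit maps and `ω(h) ρ(v) = ρ(h v) ω(h)`, for instance `ω_{V,ψ,μ}`.  For every
irreducible Casselman-Wallach representation `π` of `GL(V)` on a Frechet space `P` the space of
continuous `U(V)`-equivariant maps `π → ω` is contained in a line `ℂ l₀`. -/
def Archimedean : Prop :=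
  ∀ (n : ℕ) (J : Matrix (Fin n) (Fin n) ℂ), Jᴴ = -J → J.det ≠ 0 →
  ∀ (ε : Fin n → ℝ) (A : GL (Fin n) ℂ), IsDiag J ε A → ∀ a : ℝ, a ≠ 0 →
  ∀ {S : Type v} [AddCommGroup S] [Module ℂ S] [TopologicalSpace S] (e : S → (Fin n → ℝ) → ℂ),
    IsSchwartz e →
  ∀ ω : GL (Fin n) ℂ → (S →L[ℂ] S), IsWeilR J ε A a e ω →
  ∀ {P : Type w} [AddCommGroup P] [Module ℂ P] [TopologicalSpace P], IsFrechet P →
  ∀ π : GL (Fin n) ℂ →* (P →L[ℂ] P), IsCW π →
  ∃ l₀ : P →L[ℂ] S, ∀ l : P →L[ℂ] S, (∀ h ∈ UV J, ∀ x, l (π h x) = ω h (l x)) →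
    ∃ c : ℂ, ∀ x, l x = c • l₀ x

/-- **multiplicity one** for `U(V)` in `GL(V)` and the Weil representation -/
theorem result : Nonarchimedean.{u, v, w} ∧ StandardForm ∧ Archimedean.{v, w} := by
  refine ⟨?_, exists_isDiag, ?_⟩
  · intro F E _ _ _ _ _ _ _ hq ψ hψ hne n hn J hJ hdet δ hδ S _ _ ρ hρ ω hω P _ _ π hπ
    exact FD.nonarch hq ψ hψ hne hn J hJ hdet δ hδ ρ hρ ω hω π hπ
  · intro n J _ _ ε A hA a ha S _ _ _ e he ω hω P _ _ _ hP π hπ
    exact arch hA ha e he ω hω hP π hπ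

end Pool.Agent.Results.MP_dd0ddf_al.MultiplicityOne
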